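import Pool.Agent.helper52.D23.Tan
import Pool.Agent.helper65.CS.Main
import Pool.Agent.helper62.EIG.Rec
import Pool.Agent.helper62.EIG.FMain

set_option autoImplicit false

/-!
# D23-Link3: cubic forms, all degrees of components as multiplicities
-/

namespace EY

open MvPolynomial LinearAlgebra.Projectivization EY.CS

/-- a reduced point has multiplicity at most one -/
theorem mulAt_le_one_of_isReducedAt {N : ℕ} (f : MvPolynomial (Fin N) ℂ) (l v : Fin N → ℂ)
    (hv : IsEigenvector f v) (hl : eval v (linForm l) = 1) (hr : EIG.IsReducedAt f v) :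
    mulAt (chartIdeal f l) v ≤ 1 := by
  classical
  have hmin : ∀ i j, (X i * pderiv j f - X j * pderiv i f : MvPolynomial (Fin N) ℂ) ∈ chartIdeal f l :=
    fun i j => Ideal.mem_sup_left (Ideal.subset_span ⟨i, j, rfl⟩)
  have hlin : (linForm l - 1 : MvPolynomial (Fin N) ℂ) ∈ chartIdeal f l :=
    Ideal.mem_sup_right (Ideal.subset_span rfl)
  apply mulAt_le_one_of_tangent
  · unfold chartIdeal eigIdeal
    rw [sup_le_iff, Ideal.span_le, Ideal.span_le]
    constructor
    · rintro g ⟨i, j, rfl⟩
      change _ ∈ pt v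
      rw [mem_pt, map_sub, map_mul, map_mul, eval_X, eval_X]
      exact hv.2 i j
    · rintro g rfl
      change _ ∈ pt v
      rw [mem_pt, map_sub, map_one, hl, sub_self]
  · intro y hy
    obtain ⟨c, hc⟩ := hr y (fun i j => by
      have h1 := hy _ (hmin i j)
      rw [← h1]
      unfold EIG.dminor
      have h2 : ∀ a b : Fin N, ∀ k, y k * eval v (pderiv k (X a * pderiv b f)) =
          (if k = a then y a * eval v (pderiv b f) else 0) + v a * (y k * eval v (pderiv k (pderiv b f))) := by
        intro a b k
        rw [Derivation.leibniz, smul_eq_mul, smul_eq_mul, pderiv_X, map_add, map_mul, map_mul, eval_X]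
        by_cases hk : k = a
        · subst hk
          rw [if_pos rfl, Pi.single_eq_same, map_one]
          ring
        · rw [if_neg hk, Pi.single_eq_of_ne (fun h => hk h.symm), map_zero]
          ring
      have h3 : ∀ a b : Fin N, ∑ k, y k * eval v (pderiv k (X a * pderiv b f)) =
          y a * eval v (pderiv b f) + v a * ∑ k, y k * eval v (pderiv k (pderiv b f)) := by
        intro a b
        rw [Finset.sum_congr rfl fun k _ => h2 a b k, Finset.sum_add_distrib, ← Finset.mul_sum,
          Finset.sum_ite_eq' Finset.univ a, if_pos (Finset.mem_univ a)]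
      rw [← h3 i j, ← h3 j i, ← Finset.sum_sub_distrib]
      refine Finset.sum_congr rfl fun k _ => ?_
      rw [map_sub, map_sub, mul_sub])
    have h4 := hy _ hlin
    have h5 : ∀ k, eval v (pderiv k (linForm l - 1)) = l k := by
      intro k
      unfold linForm
      rw [map_sub, map_sum, map_sub, map_sum, Finset.sum_eq_single k]
      · rw [pderiv_C_mul, pderiv_X, Pi.single_eq_same, pderiv_one, map_zero, sub_zero, mul_one, eval_C]
      · intro j _ hj
        rw [pderiv_C_mul, pderiv_X, Pi.single_eq_of_ne hj, mul_zero, map_zero]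
      · intro h0; exact absurd (Finset.mem_univ k) h0
    have h6 : ∑ k, y k * l k = c := by
      rw [hc]
      have h7 : eval v (linForm l) = ∑ k, l k * v k := by
        unfold linForm
        rw [map_sum]
        refine Finset.sum_congr rfl fun k _ => ?_
        rw [map_mul, eval_C, eval_X]
      have h8 : ∑ k, (c • v) k * l k = c * ∑ k, l k * v k := by
        rw [Finset.mul_sum]
        refine Finset.sum_congr rfl fun k _ => ?_
        rw [Pi.smul_apply, smul_eq_mul]
        ring
      rw [h8, ← h7, hl, mul_one]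
    have h9 : ∑ k, y k * eval v (pderiv k (linForm l - 1)) = ∑ k, y k * l k :=
      Finset.sum_congr rfl fun k _ => by rw [h5]
    rw [h9, h6] at h4
    rw [hc, h4, zero_smul]

theorem DD_two (N : ℕ) : DD 2 N + 1 = 2 ^ N := by
  have h := DD_eq (q := 2) le_rfl N
  omega

/-- cubic forms: all degrees of components -/
theorem rz_cubic {N m : ℕ} (hN : 1 ≤ N) (h1 : 1 ≤ m) (h2 : m ≤ DD 2 N) : Rz 2 N m := by
  classical
  have hD := DD_two N
  obtain ⟨f, hf, hfin, hcard, P0, hP0, hred⟩ :=
    EIG.main_of_ach (EIG.ach_all N (2 ^ N - m) hN (by omega) (by omega))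
  have hfin' : (eigenpoints f).Finite := hfin
  have hP0' : P0 ∈ eigenpoints f := hP0
  obtain ⟨l, hl⟩ := exists_chart hfin'
  obtain ⟨h3, h4⟩ := sum_mulAt le_rfl f hf hfin' l hl
  have h5 : ∀ P ∈ hfin'.toFinset.erase P0, mulAt (chartIdeal f l) (nrep l P) = 1 := by
    intro P hP
    obtain ⟨hPne, hPm⟩ := Finset.mem_erase.mp hP
    have hPe := hfin'.mem_toFinset.mp hPm
    refine le_antisymm ?_ (h3 P hPe)
    have h6 := mulAt_eq_nrep (q := 2) f hf l hl (lP P) P.rep hPe (eval_lP P)
    rw [P.mk_rep] at h6
    rw [← h6]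
    exact mulAt_le_one_of_isReducedAt f _ _ hPe (eval_lP P) (hred P hPe hPne)
  have hcard' : hfin'.toFinset.card = 2 ^ N - m := by
    rw [← hcard]
    exact (Set.ncard_eq_toFinset_card _ hfin').symm
  have h7 : mulAt (chartIdeal f l) (nrep l P0) = m := by
    have hm0 : P0 ∈ hfin'.toFinset := hfin'.mem_toFinset.mpr hP0'
    rw [← Finset.add_sum_erase _ _ hm0, Finset.sum_congr rfl h5, Finset.sum_const, smul_eq_mul, mul_one,
      Finset.card_erase_of_mem hm0, hcard'] at h4
    omega
  refine ⟨f, hf, hfin', l, nrep l P0, ?_, eval_nrep (hl P0 hP0'), h7⟩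
  rw [nrep_smul]
  exact isEigenvector_smul (q := 2) hf hP0' (inv_ne_zero (hl P0 hP0'))

end EY
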