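import Pool.Agent.helper52.D23.Two
import Pool.Agent.helper52.D23.Link3
import Pool.Agent.helper65.CS.Quad

set_option autoImplicit false

/-!
# D23-All: the final statement for all `n ≥ 1` and `d ≥ 2` from `Rz q N m` for `q ≥ 3`
-/

namespace EY

open MvPolynomial LinearAlgebra.Projectivization

/-- the number `D_{n,d}` of the problem: `((d-1)^(n+1) - 1)/(d-2)`, read as `n + 1` for `d = 2` -/
def Dnd (n d : ℕ) : ℕ := if d = 2 then n + 1 else ((d - 1) ^ (n + 1) - 1) / (d - 2)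

theorem Dnd_eq {n d : ℕ} (hd : 2 ≤ d) : Dnd n d = DD (d - 1) (n + 1) := by
  unfold Dnd
  by_cases h2 : d = 2
  · subst h2
    rw [if_pos rfl]
    simp [DD]
  · rw [if_neg h2]
    have h3 : 2 ≤ d - 1 := by omega
    have h4 := CS.DD_eq h3 (n + 1)
    have h5 : d - 1 - 1 = d - 2 := by omega
    rw [h5] at h4
    rw [← h4, Nat.add_sub_cancel]
    exact Nat.mul_div_cancel_left _ (by omega)

theorem cs1 (N : ℕ) : CS1 N := fun f hf hfin => CS.sum_mult_one f hf hfin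

/-- **the answer to Q1**, from the realization of all degrees for `q ≥ 3` -/
theorem final_all (hR : ∀ q N m, 3 ≤ q → 1 ≤ N → 1 ≤ m → m ≤ DD q N → Rz q N m)
    {n d : ℕ} (hn : 1 ≤ n) (hd : 2 ≤ d) (m : ℕ) :
    (∃ f : MvPolynomial (Fin (n + 1)) ℂ, f.IsHomogeneous d ∧ (eigenpoints f).Finite ∧
      (∃ P ∈ eigenpoints f, ¬ IsReduced (localRing f P)) ∧ ∃ P ∈ eigenpoints f, mult f P = m) ↔
      1 ≤ m ∧ m ≤ Dnd n d ∧ ¬ (n = 1 ∧ d = 2 ∧ m = 1) := by
  rw [Dnd_eq hd]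
  by_cases h2 : d = 2
  · subst h2
    rw [final_two cs1 hn m]
    have h3 : DD (2 - 1) (n + 1) = n + 1 := by simp [DD]
    rw [h3]
    tauto
  · obtain ⟨q, rfl⟩ : ∃ q, d = q + 1 := ⟨d - 1, by omega⟩
    have hq : 2 ≤ q := by omega
    rw [Nat.add_sub_cancel]
    have h4 : ∀ m, 1 ≤ m → m ≤ DD q (n + 1) → Rz q (n + 1) m := by
      intro m hm1 hm2
      rcases Nat.lt_or_ge q 3 with h | h
      · obtain rfl : q = 2 := by omega
        exact rz_cubic (by omega) hm1 hm2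
      · exact hR q (n + 1) m h (by omega) hm1 hm2
    rw [final_iff hq hn h4 (CS.hCS hq) m]
    have h5 : ¬ (n = 1 ∧ q + 1 = 2 ∧ m = 1) := by
      rintro ⟨_, h, _⟩
      omega
    tauto

end EY
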