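import Mathlib

/-!
# Eigenschemes supported at a single point

For every `n ≥ 1` and `d ≥ 2` there is a form `f` of degree `d` in `n + 1` variables whose
eigenscheme has exactly one closed point.
-/

namespace EY.D23Single

open MvPolynomial

/-- `v` is an eigenvector of the form `f`: it is nonzero and all the `2 × 2` minors of the matrix
with rows `x` and `∇f` vanish at `v`. -/
def IsEigenvector {n : ℕ} (f : MvPolynomial (Fin (n + 1)) ℂ) (v : Fin (n + 1) → ℂ) : Prop :=
  v ≠ 0 ∧ ∀ i j, v i * eval v (pderiv j f) - v j * eval v (pderiv i f) = 0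

/-- The new linear coordinates. -/
noncomputable def Z {n : ℕ} (j : Fin (n + 1)) : MvPolynomial (Fin (n + 1)) ℂ :=
  C ((1 + Complex.I) / 2) * X j + C ((1 - Complex.I) / 2) * X (Fin.rev j)

/-- The values of the new coordinates. -/
noncomputable def zv {n : ℕ} (v : Fin (n + 1) → ℂ) (j : Fin (n + 1)) : ℂ :=
  (1 + Complex.I) / 2 * v j + (1 - Complex.I) / 2 * v (Fin.rev j)

/-- The form. -/
noncomputable def nform (n d : ℕ) : MvPolynomial (Fin (n + 1)) ℂ :=
  ∑ i : Fin n, Z i.succ ^ (d - 1) * Z (Fin.rev i).succ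

lemma Z_hom {n : ℕ} (j : Fin (n + 1)) : (Z j : MvPolynomial (Fin (n + 1)) ℂ).IsHomogeneous 1 := by
  unfold Z
  refine IsHomogeneous.add ?_ ?_
  · simpa using (isHomogeneous_C (Fin (n + 1)) ((1 + Complex.I) / 2)).mul (isHomogeneous_X ℂ j)
  · simpa using (isHomogeneous_C (Fin (n + 1)) ((1 - Complex.I) / 2)).mul
      (isHomogeneous_X ℂ (Fin.rev j))

lemma nform_hom (n d : ℕ) (hd : 2 ≤ d) : (nform n d).IsHomogeneous d := by
  unfold nform
  refine IsHomogeneous.sum _ _ _ fun i _ => ?_
  have h := ((Z_hom i.succ).pow (d - 1)).mul (Z_hom (Fin.rev i).succ)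
  have e : 1 * (d - 1) + 1 = d := by omega
  rwa [e] at h

lemma eval_Z {n : ℕ} (v : Fin (n + 1) → ℂ) (j : Fin (n + 1)) : eval v (Z j) = zv v j := by
  simp [Z, zv]

/-- The directional derivative of `f` at `v` in the direction dual to the coordinate `Z m`. -/
noncomputable def dirD {n : ℕ} (f : MvPolynomial (Fin (n + 1)) ℂ) (v : Fin (n + 1) → ℂ)
    (m : Fin (n + 1)) : ℂ :=
  (1 - Complex.I) / 2 * eval v (pderiv m f) + (1 + Complex.I) / 2 * eval v (pderiv (Fin.rev m) f)

/-- The same as a derivation-valued expression. -/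
noncomputable def DD {n : ℕ} (m : Fin (n + 1)) (f : MvPolynomial (Fin (n + 1)) ℂ) :
    MvPolynomial (Fin (n + 1)) ℂ :=
  C ((1 - Complex.I) / 2) * pderiv m f + C ((1 + Complex.I) / 2) * pderiv (Fin.rev m) f

lemma eval_DD {n : ℕ} (m : Fin (n + 1)) (f : MvPolynomial (Fin (n + 1)) ℂ)
    (v : Fin (n + 1) → ℂ) : eval v (DD m f) = dirD f v m := by
  simp [DD, dirD]

lemma DD_sum {n : ℕ} (m : Fin (n + 1)) {ι : Type*} (s : Finset ι)
    (f : ι → MvPolynomial (Fin (n + 1)) ℂ) : DD m (∑ i ∈ s, f i) = ∑ i ∈ s, DD m (f i) := by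
  unfold DD
  rw [map_sum, map_sum, Finset.mul_sum, Finset.mul_sum, Finset.sum_add_distrib]

lemma DD_mul {n : ℕ} (m : Fin (n + 1)) (f g : MvPolynomial (Fin (n + 1)) ℂ) :
    DD m (f * g) = DD m f * g + f * DD m g := by
  unfold DD
  rw [Derivation.leibniz, Derivation.leibniz]
  simp only [smul_eq_mul]
  ring

lemma DD_pow {n : ℕ} (m : Fin (n + 1)) (f : MvPolynomial (Fin (n + 1)) ℂ) (k : ℕ) :
    DD m (f ^ k) = (k : MvPolynomial (Fin (n + 1)) ℂ) * f ^ (k - 1) * DD m f := by
  unfold DD
  rw [Derivation.leibniz_pow, Derivation.leibniz_pow]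
  simp only [smul_eq_mul, nsmul_eq_mul]
  ring

lemma rev_eq_iff' {n : ℕ} (a b : Fin (n + 1)) : Fin.rev a = b ↔ a = Fin.rev b := by
  constructor
  · intro h; rw [← h, Fin.rev_rev]
  · intro h; rw [h, Fin.rev_rev]

lemma DD_Z {n : ℕ} (m j : Fin (n + 1)) : DD m (Z j) = if j = m then 1 else 0 := by
  unfold DD Z
  have h1 : ∀ (a b : Fin (n + 1)), pderiv a (X b : MvPolynomial (Fin (n + 1)) ℂ)
      = if b = a then 1 else 0 := by
    intro a b
    rw [pderiv_X]
    by_cases h : b = a
    · subst h; simp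
    · rw [Pi.single_eq_of_ne h, if_neg h]
  simp only [map_add, Derivation.leibniz, pderiv_C, smul_eq_mul, mul_zero, add_zero, h1]
  have hI : Complex.I * Complex.I = -1 := Complex.I_mul_I
  have c1 : ((1 - Complex.I) / 2) * ((1 + Complex.I) / 2) = 1 / 2 := by
    linear_combination (-1 / 4 : ℂ) * hI
  have c2 : ((1 - Complex.I) / 2) * ((1 - Complex.I) / 2)
      + ((1 + Complex.I) / 2) * ((1 + Complex.I) / 2) = 0 := by
    linear_combination (1 / 2 : ℂ) * hI
  have C1 : (C ((1 - Complex.I) / 2) * C ((1 + Complex.I) / 2) :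
      MvPolynomial (Fin (n + 1)) ℂ) = C (1 / 2) := by rw [← C_mul, c1]
  have C2 : (C ((1 - Complex.I) / 2) * C ((1 - Complex.I) / 2)
      + C ((1 + Complex.I) / 2) * C ((1 + Complex.I) / 2) :
      MvPolynomial (Fin (n + 1)) ℂ) = 0 := by rw [← C_mul, ← C_mul, ← C_add, c2, C_0]
  have C3 : (C (1 / 2) + C (1 / 2) : MvPolynomial (Fin (n + 1)) ℂ) = 1 := by
    rw [← C_add]; norm_num
  have e1 : (Fin.rev j = m) ↔ (j = Fin.rev m) := rev_eq_iff' j m
  have e2 : (Fin.rev j = Fin.rev m) ↔ (j = m) := Fin.rev_inj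
  by_cases hjm : j = m <;> by_cases hjr : j = Fin.rev m
  · subst hjm
    have hm : j = Fin.rev j := hjr
    have hm' : Fin.rev j = j := hm.symm
    simp only [hm', if_true, mul_one]
    linear_combination 2 * C1 + C2 + C3
  · have h3 : ¬ (Fin.rev j = m) := fun h => hjr (e1.mp h)
    have h4 : Fin.rev j = Fin.rev m := e2.mpr hjm
    simp only [if_pos hjm, if_neg hjr, if_neg h3, if_pos h4, mul_one, mul_zero, add_zero, zero_add]
    linear_combination 2 * C1 + C3
  · have h3 : Fin.rev j = m := e1.mpr hjr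
    have h4 : ¬ (Fin.rev j = Fin.rev m) := fun h => hjm (e2.mp h)
    simp only [if_neg hjm, if_pos hjr, if_pos h3, if_neg h4, mul_one, mul_zero, add_zero, zero_add]
    linear_combination C2
  · have h3 : ¬ (Fin.rev j = m) := fun h => hjr (e1.mp h)
    have h4 : ¬ (Fin.rev j = Fin.rev m) := fun h => hjm (e2.mp h)
    simp only [if_neg hjm, if_neg hjr, if_neg h3, if_neg h4, mul_zero, add_zero]

lemma DD_nform_zero (n d : ℕ) : DD (0 : Fin (n + 1)) (nform n d) = 0 := by
  unfold nform
  rw [DD_sum]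
  refine Finset.sum_eq_zero fun i _ => ?_
  rw [DD_mul, DD_pow, DD_Z, DD_Z, if_neg (Fin.succ_ne_zero _), if_neg (Fin.succ_ne_zero _)]
  simp

lemma DD_nform_succ (n d : ℕ) (k : Fin n) : DD k.succ (nform n d)
    = ((d - 1 : ℕ) : MvPolynomial (Fin (n + 1)) ℂ) * Z k.succ ^ (d - 1 - 1) * Z (Fin.rev k).succ
      + Z (Fin.rev k).succ ^ (d - 1) := by
  unfold nform
  rw [DD_sum]
  have : ∀ i : Fin n, DD k.succ (Z i.succ ^ (d - 1) * Z (Fin.rev i).succ
      : MvPolynomial (Fin (n + 1)) ℂ)
      = (if i = k then ((d - 1 : ℕ) : MvPolynomial (Fin (n + 1)) ℂ) * Z i.succ ^ (d - 1 - 1)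
          * Z (Fin.rev i).succ else 0)
        + (if i = Fin.rev k then Z i.succ ^ (d - 1) else 0) := by
    intro i
    rw [DD_mul, DD_pow, DD_Z, DD_Z]
    have e1 : (i.succ = k.succ) ↔ i = k := Fin.succ_inj
    have e2 : ((Fin.rev i).succ = k.succ) ↔ i = Fin.rev k := by
      rw [Fin.succ_inj]
      constructor
      · intro h; rw [← h, Fin.rev_rev]
      · intro h; rw [h, Fin.rev_rev]
    by_cases h1 : i = k <;> by_cases h2 : i = Fin.rev k
    · rw [if_pos (e1.mpr h1), if_pos (e2.mpr h2), if_pos h1, if_pos h2]; ring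
    · rw [if_pos (e1.mpr h1), if_neg (fun h => h2 (e2.mp h)), if_pos h1, if_neg h2]; ring
    · rw [if_neg (fun h => h1 (e1.mp h)), if_pos (e2.mpr h2), if_neg h1, if_pos h2]; ring
    · rw [if_neg (fun h => h1 (e1.mp h)), if_neg (fun h => h2 (e2.mp h)), if_neg h1, if_neg h2]
      ring
  rw [Finset.sum_congr rfl fun i _ => this i, Finset.sum_add_distrib, Finset.sum_ite_eq',
    Finset.sum_ite_eq']
  simp

lemma zv_rev {n : ℕ} (v : Fin (n + 1) → ℂ) (j : Fin (n + 1)) :
    v j = (1 - Complex.I) / 2 * zv v j + (1 + Complex.I) / 2 * zv v (Fin.rev j) := by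
  unfold zv
  rw [Fin.rev_rev]
  have hI : Complex.I * Complex.I = -1 := Complex.I_mul_I
  linear_combination ((v j) / 2 - (v (Fin.rev j)) / 2) * hI

/-- Eigenvectors with nonzero eigenvalue do not exist; those with eigenvalue zero are unique. -/
lemma zv_eq_zero (n d : ℕ) (hd : 2 ≤ d) (v : Fin (n + 1) → ℂ)
    (hv : IsEigenvector (nform n d) v) : ∀ i : Fin n, zv v i.succ = 0 := by
  obtain ⟨hv0, hmin⟩ := hv
  obtain ⟨i0, hi0⟩ : ∃ i, v i ≠ 0 := by
    by_contra h
    push Not at h
    exact hv0 (funext h)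
  set lam : ℂ := eval v (pderiv i0 (nform n d)) / v i0 with hlam
  have hgrad : ∀ j, eval v (pderiv j (nform n d)) = lam * v j := by
    intro j
    have := hmin i0 j
    rw [hlam]
    field_simp
    linear_combination this
  have hD : ∀ m, eval v (DD m (nform n d)) = lam * zv v (Fin.rev m) := by
    intro m
    rw [eval_DD]
    unfold dirD zv
    rw [hgrad, hgrad, Fin.rev_rev]
    ring
  have h0 : lam * zv v (Fin.last n) = 0 := by
    have := hD 0
    rw [DD_nform_zero, map_zero, Fin.rev_zero] at this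
    exact this.symm
  have hs : ∀ k : Fin n, ((d - 1 : ℕ) : ℂ) * zv v k.succ ^ (d - 1 - 1) * zv v (Fin.rev k).succ
      + zv v (Fin.rev k).succ ^ (d - 1) = lam * zv v (Fin.rev k.succ) := by
    intro k
    have := hD k.succ
    rw [DD_nform_succ] at this
    simpa [eval_Z] using this
  by_cases hl : lam = 0
  · -- eigenvalue zero
    intro k
    have h1 := hs k
    have h2 := hs (Fin.rev k)
    rw [Fin.rev_rev] at h2
    rw [hl, zero_mul] at h1 h2
    obtain ⟨e, rfl⟩ : ∃ e, d = e + 2 := ⟨d - 2, by omega⟩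
    have he : e + 2 - 1 = e + 1 := by omega
    have he' : e + 2 - 1 - 1 = e := by omega
    rw [he'] at h1 h2
    rw [he] at h1 h2
    set a := zv v k.succ
    set b := zv v (Fin.rev k).succ
    have hfin : ∀ a b : ℂ, ((e + 1 : ℕ) : ℂ) * a ^ e * b + b ^ (e + 1) = 0 →
        ((e + 1 : ℕ) : ℂ) * b ^ e * a + a ^ (e + 1) = 0 → a * b = 0 → a = 0 := by
      intro a b h1 h2 hab
      rcases mul_eq_zero.mp hab with h | h
      · exact h
      · rw [h] at h2
        rcases Nat.eq_zero_or_pos e with he0 | he0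
        · subst he0
          have : (2 : ℂ) * a = 0 := by
            have := h2
            simp only [zero_add, Nat.cast_one, pow_zero, pow_one, mul_one, one_mul] at this
            linear_combination this
          simpa using this
        · rw [zero_pow (by omega : e ≠ 0)] at h2
          have : a ^ (e + 1) = 0 := by linear_combination h2
          exact pow_eq_zero_iff (by omega : e + 1 ≠ 0) |>.mp this
    have hab : a * b = 0 := by
      rcases Nat.eq_zero_or_pos e with he0 | he0
      · subst he0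
        have : (2 : ℂ) * b = 0 := by
          have := h1
          simp only [zero_add, Nat.cast_one, pow_zero, pow_one, mul_one, one_mul] at this
          linear_combination this
        have hb : b = 0 := by simpa using this
        rw [hb, mul_zero]
      · -- use the determinant (e+1)^2 - 1
        have k1 : ((e + 1 : ℕ) : ℂ) * (a ^ (e + 1) * b) + a * b ^ (e + 1) = 0 := by
          have := congrArg (fun t => a * t) h1
          simp only [mul_zero] at this
          rw [← this]; ring
        have k2 : ((e + 1 : ℕ) : ℂ) * (a * b ^ (e + 1)) + a ^ (e + 1) * b = 0 := by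
          have := congrArg (fun t => b * t) h2
          simp only [mul_zero] at this
          rw [← this]; ring
        have k3 : (((e + 1 : ℕ) : ℂ) ^ 2 - 1) * (a ^ (e + 1) * b) = 0 := by
          linear_combination ((e + 1 : ℕ) : ℂ) * k1 - k2
        have k4 : (((e + 1 : ℕ) : ℂ) ^ 2 - 1) ≠ 0 := by
          have : (((e + 1 : ℕ) : ℂ) ^ 2 - 1) = ((e * (e + 2) : ℕ) : ℂ) := by
            push_cast; ring
          rw [this]
          have : e * (e + 2) ≠ 0 := by positivity
          exact_mod_cast this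
        have k5 : a ^ (e + 1) * b = 0 := by
          rcases mul_eq_zero.mp k3 with h | h
          · exact absurd h k4
          · exact h
        rcases mul_eq_zero.mp k5 with h | h
        · rw [pow_eq_zero_iff (by omega : e + 1 ≠ 0) |>.mp h, zero_mul]
        · rw [h, mul_zero]
    exact hfin a b h1 h2 hab
  · -- nonzero eigenvalue: contradiction
    exfalso
    have key : ∀ k : ℕ, ∀ hk : k ≤ n, zv v ⟨n - k, by omega⟩ = 0 := by
      intro k
      induction k with
      | zero =>
        intro _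
        rcases mul_eq_zero.mp h0 with h | h
        · exact absurd h hl
        · simpa [Fin.last] using h
      | succ k ih =>
        intro hk
        have ih' := ih (by omega)
        have hsk := hs ⟨k, by omega⟩
        have e1 : (Fin.rev (⟨k, by omega⟩ : Fin n)).succ = (⟨n - k, by omega⟩ : Fin (n + 1)) := by
          ext
          simp [Fin.rev]
          omega
        have e2 : Fin.rev (⟨k, by omega⟩ : Fin n).succ = (⟨n - (k + 1), by omega⟩ : Fin (n + 1)) := by
          ext
          simp [Fin.rev]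
        rw [e1, e2, ih', mul_zero, zero_add, zero_pow (by omega : d - 1 ≠ 0)] at hsk
        rcases mul_eq_zero.mp hsk.symm with h | h
        · exact absurd h hl
        · exact h
    apply hv0
    funext j
    have hz : ∀ j : Fin (n + 1), zv v j = 0 := by
      intro j
      have := key (n - j.1) (by omega)
      have e : (⟨n - (n - j.1), by omega⟩ : Fin (n + 1)) = j := by
        ext
        simp
        omega
      rwa [e] at this
    rw [zv_rev v j, hz, hz]
    simp

/-- The unique eigenvector, in the original coordinates. -/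
noncomputable def pt (n : ℕ) : Fin (n + 1) → ℂ := fun j =>
  (1 - Complex.I) / 2 * (if j = 0 then 1 else 0) +
    (1 + Complex.I) / 2 * (if Fin.rev j = 0 then 1 else 0)

lemma zv_pt (n : ℕ) (j : Fin (n + 1)) : zv (pt n) j = if j = 0 then 1 else 0 := by
  unfold zv pt
  rw [Fin.rev_rev]
  have hI : Complex.I * Complex.I = -1 := Complex.I_mul_I
  linear_combination (-(if j = 0 then (1 : ℂ) else 0) / 2
    + (if Fin.rev j = 0 then (1 : ℂ) else 0) / 2) * hI

lemma eq_smul_pt (n : ℕ) (v : Fin (n + 1) → ℂ) (h : ∀ i : Fin n, zv v i.succ = 0) :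
    v = zv v 0 • pt n := by
  funext j
  have hz : ∀ j : Fin (n + 1), zv v j = zv v 0 * (if j = 0 then 1 else 0) := by
    intro j
    rcases Fin.eq_zero_or_eq_succ j with h0 | ⟨i, rfl⟩
    · rw [h0]; simp
    · rw [h i, if_neg (Fin.succ_ne_zero _), mul_zero]
  rw [zv_rev v j, hz j, hz (Fin.rev j)]
  simp only [Pi.smul_apply, smul_eq_mul, pt]
  ring

lemma pt_isEigenvector (n d : ℕ) (hd : 2 ≤ d) :
    IsEigenvector (nform n d) (pt n) := by
  constructor
  · intro h
    have := zv_pt n 0
    rw [h] at this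
    simp [zv] at this
  · have hDD : ∀ m, eval (pt n) (DD m (nform n d)) = 0 := by
      intro m
      rcases Fin.eq_zero_or_eq_succ m with h0 | ⟨k, rfl⟩
      · rw [h0, DD_nform_zero, map_zero]
      · rw [DD_nform_succ]
        simp [eval_Z, zv_pt, Fin.succ_ne_zero, zero_pow (by omega : d - 1 ≠ 0)]
    have hp : ∀ m, eval (pt n) (pderiv m (nform n d)) = 0 := by
      intro m
      have h1 := hDD m
      have h2 := hDD (Fin.rev m)
      rw [eval_DD] at h1 h2
      unfold dirD at h1 h2
      rw [Fin.rev_rev] at h2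
      have hI : Complex.I * Complex.I = -1 := Complex.I_mul_I
      linear_combination ((1 + Complex.I) / 2) * h1 + ((1 - Complex.I) / 2) * h2
        + (eval (pt n) (pderiv m (nform n d)) / 2 - eval (pt n) (pderiv (Fin.rev m) (nform n d)) / 2)
          * hI
    intro i j
    rw [hp, hp]
    ring

/-- For all `n ≥ 1` and `d ≥ 2` there is a form of degree `d` in `n + 1` variables with exactly
one eigenvector up to scaling. -/
theorem result (n d : ℕ) (_hn : 1 ≤ n) (hd : 2 ≤ d) :
    ∃ f : MvPolynomial (Fin (n + 1)) ℂ, f.IsHomogeneous d ∧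
      ∃ v : Fin (n + 1) → ℂ, IsEigenvector f v ∧
        ∀ w : Fin (n + 1) → ℂ, IsEigenvector f w → ∃ c : ℂ, c ≠ 0 ∧ w = c • v := by
  refine ⟨nform n d, nform_hom n d hd, pt n, pt_isEigenvector n d hd, fun w hw => ?_⟩
  have h := eq_smul_pt n w (zv_eq_zero n d hd w hw)
  refine ⟨zv w 0, ?_, h⟩
  intro h0
  apply hw.1
  rw [h, h0, zero_smul]

end EY.D23Single
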