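import Pool.Agent.helper5.EY.Loc

set_option autoImplicit false

/-!
# D23-Tan: a point with zero tangent space has multiplicity at most one
-/

namespace EY

open MvPolynomial

/-- if every function vanishing at `p` lies in `I + m_p ^ 2` then the local ring has dimension at most one -/
theorem mulAt_le_one_of_le {σ : Type*} [Finite σ] (I : Ideal (MvPolynomial σ ℂ)) (p : σ → ℂ)
    (h : pt p ≤ I ⊔ pt p ^ 2) : mulAt I p ≤ 1 := by
  have hM : (pt p).map (algebraMap (MvPolynomial σ ℂ) (Localization.AtPrime (pt p))) =
      IsLocalRing.maximalIdeal (Localization.AtPrime (pt p)) := Localization.AtPrime.map_eq_maximalIdeal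
  have h1 : IsLocalRing.maximalIdeal (Localization.AtPrime (pt p)) ≤
      I.map (algebraMap (MvPolynomial σ ℂ) (Localization.AtPrime (pt p))) ⊔
        IsLocalRing.maximalIdeal (Localization.AtPrime (pt p)) •
          IsLocalRing.maximalIdeal (Localization.AtPrime (pt p)) := by
    rw [← hM, smul_eq_mul, ← Ideal.map_mul, ← Ideal.map_sup, ← pow_two]
    exact Ideal.map_mono h
  have h2 : IsLocalRing.maximalIdeal (Localization.AtPrime (pt p)) ≤
      I.map (algebraMap (MvPolynomial σ ℂ) (Localization.AtPrime (pt p))) :=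
    Submodule.le_of_le_smul_of_le_jacobson_bot (IsNoetherian.noetherian _)
      (by rw [IsLocalRing.jacobson_eq_maximalIdeal ⊥ bot_ne_top]) h1
  refine finrank_le_one (1 : Localization.AtPrime (pt p) ⧸
    I.map (algebraMap (MvPolynomial σ ℂ) (Localization.AtPrime (pt p)))) fun w => ?_
  obtain ⟨y, rfl⟩ := Ideal.Quotient.mk_surjective w
  obtain ⟨r, s, rfl⟩ := IsLocalization.exists_mk'_eq (pt p).primeCompl y
  have hs : eval p (s : MvPolynomial σ ℂ) ≠ 0 := fun h0 => s.2 (mem_pt.mpr h0)
  refine ⟨eval p r / eval p (s : MvPolynomial σ ℂ), ?_⟩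
  have h3 : algebraMap ℂ (Localization.AtPrime (pt p)) (eval p r / eval p (s : MvPolynomial σ ℂ)) -
      IsLocalization.mk' (Localization.AtPrime (pt p)) r s ∈ IsLocalRing.maximalIdeal (Localization.AtPrime (pt p)) := by
    have h4 : (algebraMap ℂ (Localization.AtPrime (pt p)) (eval p r / eval p (s : MvPolynomial σ ℂ)) -
        IsLocalization.mk' (Localization.AtPrime (pt p)) r s) * algebraMap _ _ (s : MvPolynomial σ ℂ) =
        algebraMap (MvPolynomial σ ℂ) (Localization.AtPrime (pt p))
          (C (eval p r / eval p (s : MvPolynomial σ ℂ)) * (s : MvPolynomial σ ℂ) - r) := by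
      rw [sub_mul, IsLocalization.mk'_spec, map_sub, map_mul]
      rfl
    have h5 : (algebraMap ℂ (Localization.AtPrime (pt p)) (eval p r / eval p (s : MvPolynomial σ ℂ)) -
        IsLocalization.mk' (Localization.AtPrime (pt p)) r s) * algebraMap _ _ (s : MvPolynomial σ ℂ) ∈
        IsLocalRing.maximalIdeal (Localization.AtPrime (pt p)) := by
      rw [h4, ← hM]
      apply Ideal.mem_map_of_mem
      rw [mem_pt, map_sub, map_mul, eval_C, div_mul_cancel₀ _ hs, sub_self]
    have h6 : IsUnit (algebraMap (MvPolynomial σ ℂ) (Localization.AtPrime (pt p)) (s : MvPolynomial σ ℂ)) :=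
      IsLocalization.map_units (Localization.AtPrime (pt p)) s
    exact (Ideal.mul_unit_mem_iff_mem _ h6).mp h5
  have h7 := h2 h3
  rw [← Ideal.Quotient.eq_zero_iff_mem, map_sub, sub_eq_zero] at h7
  rw [← h7]
  exact Algebra.algebraMap_eq_smul_one (A := Localization.AtPrime (pt p) ⧸
    I.map (algebraMap (MvPolynomial σ ℂ) (Localization.AtPrime (pt p)))) _ |>.symm

/-- first order Taylor expansion -/
theorem taylor_one {σ : Type*} [Fintype σ] (p : σ → ℂ) (h : MvPolynomial σ ℂ) :
    h - C (eval p h) - ∑ k, C (eval p (pderiv k h)) * (X k - C (p k)) ∈ pt p ^ 2 := by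
  classical
  have hX : ∀ i, (X i - C (p i) : MvPolynomial σ ℂ) ∈ pt p := fun i => by
    rw [mem_pt, map_sub, eval_X, eval_C, sub_self]
  induction h using MvPolynomial.induction_on with
  | C a => simp
  | add f g hf hg =>
    have e : f + g - C (eval p (f + g)) - ∑ k, C (eval p (pderiv k (f + g))) * (X k - C (p k)) =
        (f - C (eval p f) - ∑ k, C (eval p (pderiv k f)) * (X k - C (p k))) +
        (g - C (eval p g) - ∑ k, C (eval p (pderiv k g)) * (X k - C (p k))) := by
      have e1 : ∑ k, C (eval p (pderiv k (f + g))) * (X k - C (p k)) =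
          ∑ k, C (eval p (pderiv k f)) * (X k - C (p k)) + ∑ k, C (eval p (pderiv k g)) * (X k - C (p k)) := by
        rw [← Finset.sum_add_distrib]
        refine Finset.sum_congr rfl fun k _ => ?_
        rw [map_add, map_add, map_add, add_mul]
      rw [e1, map_add, map_add]
      ring
    rw [e]
    exact Ideal.add_mem _ hf hg
  | mul_X f i hf =>
    have e1 : ∑ k, C (eval p (pderiv k (f * X i))) * (X k - C (p k)) =
        C (p i) * ∑ k, C (eval p (pderiv k f)) * (X k - C (p k)) + C (eval p f) * (X i - C (p i)) := by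
      have e2 : ∀ k, C (eval p (pderiv k (f * X i))) * (X k - C (p k)) =
          C (p i) * (C (eval p (pderiv k f)) * (X k - C (p k))) +
          (if k = i then C (eval p f) * (X i - C (p i)) else 0) := by
        intro k
        rw [Derivation.leibniz, smul_eq_mul, smul_eq_mul, pderiv_X, map_add, map_mul, map_mul, eval_X, map_add,
          map_mul, map_mul]
        by_cases hk : k = i
        · subst hk
          rw [if_pos rfl, Pi.single_eq_same, map_one, map_one]
          ring
        · rw [if_neg hk, Pi.single_eq_of_ne (fun h => hk h.symm), map_zero, map_zero]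
          ring
      rw [Finset.sum_congr rfl fun k _ => e2 k, Finset.sum_add_distrib, ← Finset.mul_sum,
        Finset.sum_ite_eq' Finset.univ i, if_pos (Finset.mem_univ i)]
    have e : f * X i - C (eval p (f * X i)) - ∑ k, C (eval p (pderiv k (f * X i))) * (X k - C (p k)) =
        (f - C (eval p f) - ∑ k, C (eval p (pderiv k f)) * (X k - C (p k))) * C (p i) +
        (f - C (eval p f)) * (X i - C (p i)) := by
      rw [e1, map_mul, eval_X, map_mul]
      ring
    rw [e]
    refine Ideal.add_mem _ (Ideal.mul_mem_right _ _ hf) ?_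
    rw [pow_two]
    exact Ideal.mul_mem_mul (mem_pt.mpr (by rw [map_sub, eval_C, sub_self])) (hX i)

/-- a point with zero tangent space has multiplicity at most one -/
theorem mulAt_le_one_of_tangent {σ : Type*} [Fintype σ] (I : Ideal (MvPolynomial σ ℂ)) (p : σ → ℂ)
    (hI : I ≤ pt p)
    (h : ∀ y : σ → ℂ, (∀ g ∈ I, ∑ k, y k * eval p (pderiv k g) = 0) → y = 0) : mulAt I p ≤ 1 := by
  classical
  apply mulAt_le_one_of_le
  -- the differentials
  let D : MvPolynomial σ ℂ →ₗ[ℂ] (σ → ℂ) :=
    { toFun := fun g k => eval p (pderiv k g)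
      map_add' := fun f g => by funext k; simp
      map_smul' := fun c f => by funext k; simp }
  have hD : ∀ g k, D g k = eval p (pderiv k g) := fun _ _ => rfl
  set W : Submodule ℂ (σ → ℂ) := (I.restrictScalars ℂ).map D with hW
  have hWtop : W = ⊤ := by
    by_contra hne
    obtain ⟨φ, hφ, hφW⟩ := Submodule.exists_le_ker_of_lt_top W (lt_top_iff_ne_top.mpr hne)
    apply hφ
    have h1 := h (fun k => φ (Pi.single k 1)) (fun g hg => by
      have h2 : φ (D g) = 0 := hφW (Submodule.mem_map_of_mem hg)
      rw [← h2, LinearMap.pi_apply_eq_sum_univ φ (D g)]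
      refine Finset.sum_congr rfl fun k _ => ?_
      rw [hD, smul_eq_mul, mul_comm]
      congr 2
      funext j
      by_cases hj : j = k
      · subst hj; simp
      · rw [Pi.single_eq_of_ne hj, if_neg (fun h => hj h.symm)])
    apply LinearMap.ext
    intro x
    rw [LinearMap.pi_apply_eq_sum_univ φ x]
    refine (Finset.sum_eq_zero fun k _ => ?_).trans rfl
    have h3 := congrFun h1 k
    have h4 : (fun j => if k = j then (1 : ℂ) else 0) = Pi.single k 1 := by
      funext j
      by_cases hj : j = k
      · subst hj; simp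
      · rw [Pi.single_eq_of_ne hj, if_neg (fun h => hj h.symm)]
    rw [h4]
    simp only [Pi.zero_apply] at h3
    rw [h3, smul_zero]
  have hX : ∀ k, (X k - C (p k) : MvPolynomial σ ℂ) ∈ I ⊔ pt p ^ 2 := by
    intro k
    have h1 : (Pi.single k 1 : σ → ℂ) ∈ W := by rw [hWtop]; trivial
    obtain ⟨g, hg, hgk⟩ := Submodule.mem_map.mp h1
    have h2 := taylor_one p g
    have h3 : ∑ j, C (eval p (pderiv j g)) * (X j - C (p j)) = (X k - C (p k) : MvPolynomial σ ℂ) := by
      rw [Finset.sum_eq_single k]
      · have h4 := congrFun hgk k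
        rw [hD, Pi.single_eq_same] at h4
        rw [h4, map_one, one_mul]
      · intro j _ hj
        have h4 := congrFun hgk j
        rw [hD, Pi.single_eq_of_ne hj] at h4
        rw [h4, map_zero, zero_mul]
      · intro h0; exact absurd (Finset.mem_univ k) h0
    rw [h3, mem_pt.mp (hI hg), map_zero, sub_zero] at h2
    have h5 : (X k - C (p k) : MvPolynomial σ ℂ) = g - (g - (X k - C (p k))) := by ring
    rw [h5]
    exact Ideal.sub_mem _ (Ideal.mem_sup_left hg) (Ideal.mem_sup_right h2)
  intro f hf
  have h1 := taylor_one p f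
  rw [mem_pt.mp hf, map_zero, sub_zero] at h1
  have h2 : f = (f - ∑ k, C (eval p (pderiv k f)) * (X k - C (p k))) +
      ∑ k, C (eval p (pderiv k f)) * (X k - C (p k)) := by ring
  rw [h2]
  exact Ideal.add_mem _ (Ideal.mem_sup_right h1) (Ideal.sum_mem _ fun k _ => Ideal.mul_mem_left _ _ (hX k))

end EY
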