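import Pool.Agent.helper52.D23.Tan
import Pool.Agent.helper60.LS.L
import Pool.Agent.helper26.SE.Two
import Pool.Agent.helper52.D23.Single

set_option autoImplicit false

/-!
# D23-Two: quadratic forms (`d = 2`)

`CS1` is the theorem on the total degree for `q = 1` (helper65), used here as a hypothesis.
-/

namespace EY

open MvPolynomial LinearAlgebra.Projectivization

/-- the total degree of a finite eigenscheme of a quadratic form in `N` variables is `N` -/
def CS1 (N : ℕ) : Prop :=
  ∀ f : MvPolynomial (Fin N) ℂ, f.IsHomogeneous 2 → ∀ hfin : (eigenpoints f).Finite,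
    (∀ P ∈ eigenpoints f, 1 ≤ mult f P) ∧ ∑ P ∈ hfin.toFinset, mult f P = N

/-- the step L for `q = 1` -/
theorem rz_lin_step {N m : ℕ} (h : Rz 1 N m) : Rz 1 (N + 1) m := by
  obtain ⟨P, hP, hfin, l, v, hv, hl, hm⟩ := h
  obtain ⟨b, hb⟩ := LS.exists_b hP hfin
  obtain ⟨θ, hθ⟩ := LS.exists_theta hP hfin le_rfl hb
  set H : MvPolynomial (Fin N) ℂ := C θ * linForm b ^ (1 - 1) with hH
  have hHh : H.IsHomogeneous (1 - 1) := by
    have h1 := (isHomogeneous_C (Fin N) θ).mul ((linForm_isHomogeneous b).pow (1 - 1))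
    rwa [zero_add, one_mul] at h1
  have hgen : ∀ x, IsEigenvector P x → ∃ i, eval x (pderiv i P) ≠ 2 * eval x H * x i := by
    intro x hx
    obtain ⟨i, hi⟩ := hθ x hx
    refine ⟨i, fun h1 => hi ?_⟩
    rw [h1, hH, map_mul, eval_C, map_pow]
    ring
  refine ⟨LS.lf P H, LS.lf_hom le_rfl hP hHh, LS.lf_finite le_rfl hP hHh hfin hgen, Fin.snoc l 0,
    Fin.snoc v 0, LS.isEig_snoc hv, ?_, ?_⟩
  · rw [LS.eval_linForm, Fin.sum_univ_castSucc, Fin.snoc_last, Fin.snoc_last, mul_zero, add_zero]
    rw [LS.eval_linForm] at hl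
    rw [← hl]
    refine Finset.sum_congr rfl fun i _ => ?_
    rw [Fin.snoc_castSucc, Fin.snoc_castSucc]
  · rw [LS.mulAt_lf hv hl (hgen v hv)]
    exact hm

/-- `Rz` from a component in the projective format -/
theorem rz_of_mult {q N m : ℕ} {f : MvPolynomial (Fin N) ℂ} (hf : f.IsHomogeneous (q + 1))
    (hfin : (eigenpoints f).Finite) {P : ℙ ℂ (Fin N → ℂ)} (hP : P ∈ eigenpoints f) (hm : mult f P = m) :
    Rz q N m :=
  ⟨f, hf, hfin, lP P, P.rep, hP, eval_lP P, hm⟩

theorem rz_lin_max {N : ℕ} (hCS : CS1 N) (hN : 1 ≤ N) : Rz 1 N N := by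
  classical
  rcases Nat.lt_or_ge N 2 with h1 | h1
  · obtain rfl : N = 1 := by omega
    exact rz_one 1
  · obtain ⟨n, rfl⟩ : ∃ n, N = n + 1 := ⟨N - 1, by omega⟩
    obtain ⟨f, hf, v, hv, huniq⟩ :=
      D23Single.result n 2 (by omega) le_rfl
    have hv' : IsEigenvector f v := hv
    have hset : eigenpoints f = {Projectivization.mk ℂ v hv'.1} := by
      ext P
      rw [Set.mem_singleton_iff]
      constructor
      · intro hP
        obtain ⟨c, _, hc⟩ := huniq P.rep hP
        rw [← P.mk_rep, Projectivization.mk_eq_mk_iff']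
        exact ⟨c, hc.symm⟩
      · rintro rfl
        exact mem_eigenpoints_mk hf hv'
    have hfin : (eigenpoints f).Finite := by
      rw [hset]
      exact Set.finite_singleton _
    obtain ⟨_, h3⟩ := hCS f hf hfin
    have h4 : hfin.toFinset = {Projectivization.mk ℂ v hv'.1} := by
      ext P
      rw [hfin.mem_toFinset, hset]
      simp
    rw [h4, Finset.sum_singleton] at h3
    exact rz_of_mult hf hfin (mem_eigenpoints_mk hf hv') h3

theorem rz_lin (hCS : ∀ N, CS1 N) {N m : ℕ} (h1 : 1 ≤ m) (h2 : m ≤ N) : Rz 1 N m := by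
  induction N, h2 using Nat.le_induction with
  | base => exact rz_lin_max (hCS m) h1
  | succ N _ ih => exact rz_lin_step ih

/-- a component of degree one is reduced -/
theorem isReduced_of_mult_one {N : ℕ} {f : MvPolynomial (Fin N) ℂ} {P : ℙ ℂ (Fin N → ℂ)} (h : mult f P = 1) :
    IsReduced (localRing f P) := by
  have hfin : Module.Finite ℂ (localRing f P) := Module.finite_of_finrank_pos (by unfold mult at h; omega)
  have hloc : IsLocalRing (localRing f P) := isLocalRing_localRing (by omega)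
  have h1 : Function.Surjective (algebraMap ℂ (localRing f P)) := by
    have h2 : Module.finrank ℂ (localRing f P) = 1 := h
    have h3 := (finrank_eq_one_iff_of_nonzero' (1 : localRing f P) one_ne_zero).mp h2
    intro w
    obtain ⟨c, hc⟩ := h3 w
    exact ⟨c, by rw [← hc, Algebra.smul_def, mul_one]⟩
  have h2 : Function.Injective (algebraMap ℂ (localRing f P)) := (algebraMap ℂ (localRing f P)).injective
  exact isReduced_of_injective (RingEquiv.ofBijective (algebraMap ℂ (localRing f P)) ⟨h2, h1⟩).symm.toRingHom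
    (RingEquiv.ofBijective (algebraMap ℂ (localRing f P)) ⟨h2, h1⟩).symm.injective

/-- **quadratic forms**: the degrees of the components of finite non-reduced eigenschemes -/
theorem final_two (hCS : ∀ N, CS1 N) {n : ℕ} (hn : 1 ≤ n) (m : ℕ) :
    (∃ f : MvPolynomial (Fin (n + 1)) ℂ, f.IsHomogeneous 2 ∧ (eigenpoints f).Finite ∧
      (∃ P ∈ eigenpoints f, ¬ IsReduced (localRing f P)) ∧ ∃ P ∈ eigenpoints f, mult f P = m) ↔
      1 ≤ m ∧ m ≤ n + 1 ∧ ¬ (n = 1 ∧ m = 1) := by
  classical
  constructor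
  · rintro ⟨f, hf, hfin, ⟨Q, hQ, hQr⟩, P, hP, rfl⟩
    obtain ⟨h1, h2⟩ := hCS (n + 1) f hf hfin
    have hQ2 : 2 ≤ mult f Q := by
      have := h1 Q hQ
      by_contra h
      exact hQr (isReduced_of_mult_one (by omega))
    refine ⟨h1 P hP, ?_, ?_⟩
    · exact (Finset.single_le_sum (f := fun P => mult f P) (fun _ _ => Nat.zero_le _)
        (hfin.mem_toFinset.mpr hP)).trans_eq h2
    · rintro ⟨rfl, hm⟩
      have hne : P ≠ Q := by
        rintro rfl
        omega
      have h3 : mult f P + mult f Q ≤ ∑ P ∈ hfin.toFinset, mult f P := by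
        rw [← Finset.sum_pair hne]
        refine Finset.sum_le_sum_of_subset ?_
        intro R hR
        rw [Finset.mem_insert, Finset.mem_singleton] at hR
        rcases hR with rfl | rfl
        · exact hfin.mem_toFinset.mpr hP
        · exact hfin.mem_toFinset.mpr hQ
      omega
  · rintro ⟨hm1, hm2, hm3⟩
    by_cases hm : 2 ≤ m
    · obtain ⟨f, hf, hfin, P, hP, hmP⟩ := (rz_lin hCS hm1 hm2).exists_point
      exact ⟨f, hf, hfin, ⟨P, hP, not_isReduced (by omega)⟩, P, hP, hmP⟩
    · have hm' : m = 1 := by omega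
      subst hm'
      have hn2 : 2 ≤ n := by omega
      obtain ⟨f, hf, hfin, P, hP, hmP⟩ := (rz_lin hCS hn (Nat.le_succ n)).exists_point
      obtain ⟨h1, h2⟩ := hCS (n + 1) f hf hfin
      have hPm : P ∈ hfin.toFinset := hfin.mem_toFinset.mpr hP
      rw [← Finset.add_sum_erase _ _ hPm, hmP] at h2
      have h3 : ∑ Q ∈ hfin.toFinset.erase P, mult f Q = 1 := by omega
      have hne : (hfin.toFinset.erase P).Nonempty := by
        rw [Finset.nonempty_iff_ne_empty]
        intro h0
        rw [h0, Finset.sum_empty] at h3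
        exact zero_ne_one h3
      obtain ⟨Q, hQ⟩ := hne
      have hQ' : Q ∈ eigenpoints f := hfin.mem_toFinset.mp (Finset.mem_of_mem_erase hQ)
      have h4 : mult f Q ≤ 1 := by
        exact (Finset.single_le_sum (f := fun Q => mult f Q) (fun _ _ => Nat.zero_le _) hQ).trans_eq h3
      exact ⟨f, hf, hfin, ⟨P, hP, not_isReduced (by omega)⟩, Q, hQ', le_antisymm h4 (h1 Q hQ')⟩

end EY
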